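import Pool.Agent.H71.O2.K1

/-!
# Automorphic loops: the end game

If `th(a,b) = L_a⁻¹R_b⁻¹L_aR_b` fixes `b` for all `a`, `b`, the only fixed point of `J` is `e`, and two
elements do not commute, then the (simple) loop is associative.
-/

set_option autoImplicit false

namespace ALoop

open Equiv

variable {Q : Type*}

/-- `L_{xy}⁻¹L_xL_y` -/
def ff (L : Q → Perm Q) (x y : Q) : Perm Q := (L (L x y))⁻¹ * L x * L y

variable {G : Subgroup (Perm Q)} {L : Q → Perm Q} {J : Perm Q} {e : Q}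

theorem z_ci {Γ : Type*} [Group Γ] {g k : Γ} (h : g * k = k * g) : g * k⁻¹ = k⁻¹ * g := by
  have h1 : Commute g k := h
  exact h1.inv_right

theorem z_ic {Γ : Type*} [Group Γ] {g k : Γ} (h : g * k = k * g) : g⁻¹ * k = k * g⁻¹ := by
  have h1 : Commute g k := h
  exact h1.inv_left

theorem z_fi {g : Perm Q} {x : Q} (hx : g x = x) : g⁻¹ x = x := by
  rw [Perm.inv_eq_iff_eq, hx]

namespace AL0

theorem ff_mem (h : AL0 G L J e) (x y : Q) : ff L x y ∈ G :=
  G.mul_mem (G.mul_mem (G.inv_mem (h.memL _)) (h.memL _)) (h.memL _)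

theorem ff_e (h : AL0 G L J e) (x y : Q) : ff L x y e = e := by
  unfold ff
  rw [Perm.mul_apply, Perm.mul_apply, h.Le, Perm.inv_eq_iff_eq, h.Le]

theorem ff_x (h : AL0 G L J e) (x y : Q) : ff L x y x = x := by
  unfold ff
  rw [Perm.mul_apply, Perm.mul_apply, Perm.inv_eq_iff_eq]
  have h1 := congrArg (fun p : Perm Q => p y) (h.flex x)
  simp only [Perm.mul_apply, h.Rt_app] at h1
  exact h1

/-- `L_xL_y = L_{xy} f(x,y)` -/
theorem ff_mul (x y : Q) : L x * L y = L (L x y) * ff L x y := by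
  unfold ff; group

/-- `R_b⁻¹L_aR_b = L_a th(a,b)` -/
theorem Rcj (a b : Q) : (Rt L J b)⁻¹ * L a * Rt L J b = L a * Th L J a b := by
  unfold Th; group

/-- `L_a⁻¹R_bL_a = R_b th(a,b)⁻¹` -/
theorem Lcj (a b : Q) : (L a)⁻¹ * Rt L J b * L a = Rt L J b * (Th L J a b)⁻¹ := by
  unfold Th; group

section k7

variable (h : AL0 G L J e) (hK : ∀ a b, Th L J a b b = b)

include h hK

theorem k_b (a b : Q) : Th L J a b b = b := hK a b

theorem k_a (a b : Q) : Th L J a b a = a := by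
  have h1 := h.Th_inv a b
  have h2 := hK (J b) (J a)
  rw [h1] at h2
  have h3 : Th L J a b (J a) = J a := by
    rw [Perm.inv_eq_iff_eq] at h2; exact h2.symm
  have h4 := h.fixJ (h.Th_mem a b) (h.Th_e a b) h3
  rwa [h.JJ] at h4

theorem k_La (a b : Q) : Th L J a b * L a = L a * Th L J a b :=
  h.comL (h.Th_mem a b) (h.Th_e a b) (h.k_a hK a b)

theorem k_Lb (a b : Q) : Th L J a b * L b = L b * Th L J a b :=
  h.comL (h.Th_mem a b) (h.Th_e a b) (hK a b)

theorem k_Ra (a b : Q) : Th L J a b * Rt L J a = Rt L J a * Th L J a b :=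
  h.comR (h.Th_mem a b) (h.Th_e a b) (h.k_a hK a b)

theorem k_Rb (a b : Q) : Th L J a b * Rt L J b = Rt L J b * Th L J a b :=
  h.comR (h.Th_mem a b) (h.Th_e a b) (hK a b)

/-- `th(a,b⁻¹) = th(a,b)⁻¹` -/
theorem k_J (a b : Q) : Th L J a (J b) = (Th L J a b)⁻¹ := by
  have h1 := h.K1 a b
  have h2 : Th L J a b * Tx L J b = Tx L J b * Th L J a b := by
    unfold Tx
    calc Th L J a b * (L b * (Rt L J b)⁻¹) = (Th L J a b * L b) * (Rt L J b)⁻¹ := by group
      _ = L b * (Th L J a b * (Rt L J b)⁻¹) := by rw [h.k_Lb hK]; group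
      _ = L b * (Rt L J b)⁻¹ * Th L J a b := by rw [z_ci (h.k_Rb hK a b)]; group
  rw [h2] at h1
  have h3 := mul_left_cancel h1
  rw [← h3, inv_inv]

/-- `R_{b⁻¹} = R_b⁻¹` -/
theorem k_RJ (b : Q) : Rt L J (J b) = (Rt L J b)⁻¹ := by
  have h1 : ∀ a, (L a)⁻¹ * (Rt L J b * Rt L J (J b)) * L a = Rt L J b * Rt L J (J b) := by
    intro a
    have hc : Th L J a b * Rt L J (J b) = Rt L J (J b) * Th L J a b :=
      h.comR (h.Th_mem a b) (h.Th_e a b) (h.fixJ (h.Th_mem a b) (h.Th_e a b) (hK a b))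
    calc (L a)⁻¹ * (Rt L J b * Rt L J (J b)) * L a =
        ((L a)⁻¹ * Rt L J b * L a) * ((L a)⁻¹ * Rt L J (J b) * L a) := by group
      _ = (Rt L J b * (Th L J a b)⁻¹) * (Rt L J (J b) * (Th L J a (J b))⁻¹) := by
        rw [Lcj, Lcj]
      _ = Rt L J b * ((Th L J a b)⁻¹ * Rt L J (J b)) * Th L J a b := by
        rw [h.k_J hK, inv_inv]; group
      _ = Rt L J b * Rt L J (J b) := by rw [z_ic hc]; group
  have h2 : (Rt L J b * Rt L J (J b)) e = e := by
    rw [Perm.mul_apply, h.Rt_e, h.Rt_app, h.JL]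
  have h3 : Rt L J b * Rt L J (J b) = 1 := by
    ext a
    have h4 : (Rt L J b * Rt L J (J b)) * L a = L a * (Rt L J b * Rt L J (J b)) := by
      have := h1 a
      calc (Rt L J b * Rt L J (J b)) * L a =
          L a * ((L a)⁻¹ * (Rt L J b * Rt L J (J b)) * L a) := by group
        _ = _ := by rw [this]
    have h5 := congrArg (fun p : Perm Q => p e) h4
    have h6 : (Rt L J b * Rt L J (J b)) (L a e) = L a ((Rt L J b * Rt L J (J b)) e) := h5
    rw [h2, h.Le] at h6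
    simpa using h6
  exact eq_inv_of_mul_eq_one_right h3

theorem k_LJ (b : Q) : L (J b) = (L b)⁻¹ := by
  rw [← h.JRJ b]
  have h1 : L b = J * (Rt L J b)⁻¹ * J := by
    rw [← h.k_RJ hK b, h.JRJ, h.JJ]
  rw [h1]
  simp only [mul_inv_rev, inv_inv, h.Jinv]
  group

/-- `th(b⁻¹,a) = th(b,a)⁻¹` -/
theorem k_J' (b a : Q) : Th L J (J b) a = (Th L J b a)⁻¹ := by
  have h1 : Th L J (J b) a = L b * (Th L J b a)⁻¹ * (L b)⁻¹ := by
    unfold Th
    rw [h.k_LJ hK]; group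
  rw [h1]
  have h2 := z_ic (h.k_La hK b a)
  rw [← h2]; group

/-- `th(b,a) = th(a,b)⁻¹` -/
theorem k_swap (a b : Q) : Th L J b a = (Th L J a b)⁻¹ := by
  have h1 := h.Th_inv a b
  rw [h.k_J hK, h.k_J' hK, inv_inv] at h1
  exact h1

/-- `R_yR_x = f(x,y)⁻¹R_{xy}` -/
theorem k_RR (x y : Q) : Rt L J y * Rt L J x = (ff L x y)⁻¹ * Rt L J (L x y) := by
  have h1 : J * ff L x y * J = ff L x y := by
    have := h.comJ _ (h.ff_mem x y) (h.ff_e x y)
    rw [← this, mul_assoc, h.JJ1, mul_one]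
  have h2 : ff L x y = Rt L J (L x y) * (Rt L J x)⁻¹ * (Rt L J y)⁻¹ := by
    rw [← h1]
    have h3 : J * ff L x y * J = (J * L (L x y) * J)⁻¹ * (J * L x * J) * (J * L y * J) := by
      unfold ff
      simp only [mul_inv_rev, h.Jinv]
      calc J * ((L (L x y))⁻¹ * L x * L y) * J =
          J * (L (L x y))⁻¹ * 1 * L x * 1 * L y * J := by group
        _ = J * (L (L x y))⁻¹ * (J * J) * L x * (J * J) * L y * J := by rw [h.JJ1]
        _ = _ := by group
    rw [h3, h.JLJ, h.JLJ, h.JLJ, h.k_RJ hK, h.k_RJ hK, h.k_RJ hK, inv_inv]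
  rw [h2]; group

theorem ff_xy (x y : Q) : ff L x y (L x y) = L x y := by
  have h1 := congrArg (fun p : Perm Q => p e) (h.k_RR hK x y)
  simp only [Perm.mul_apply] at h1
  rw [h.Rt_e, h.Rt_e, h.Rt_app, eq_comm, Perm.inv_eq_iff_eq] at h1
  exact h1.symm

theorem ff_y (x y : Q) : ff L x y y = y := by
  have h1 := congrArg (fun p : Perm Q => p y) (h.k_RR hK x y)
  simp only [Perm.mul_apply] at h1
  have h2 : (ff L x y)⁻¹ * Rt L J (L x y) = Rt L J (L x y) * (ff L x y)⁻¹ :=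
    z_ic (h.comR (h.ff_mem x y) (h.ff_e x y) (h.ff_xy hK x y))
  have h3 : (ff L x y)⁻¹ (Rt L J (L x y) y) = Rt L J (L x y) ((ff L x y)⁻¹ y) := by
    have := congrArg (fun p : Perm Q => p y) h2
    simpa using this
  rw [h3] at h1
  have h4 : Rt L J y (Rt L J x y) = Rt L J (L x y) y := by
    rw [h.Rt_app x, h.Rt_app (L x y)]
    have h5 := congrArg (fun p : Perm Q => p x) (h.flex y)
    simp only [Perm.mul_apply] at h5
    rw [h.Rt_app y x, ] at h5
    exact h5.symm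
  rw [h4] at h1
  have h5 := (Rt L J (L x y)).injective h1
  rw [eq_comm, Perm.inv_eq_iff_eq] at h5
  exact h5.symm

/-- `f(y⁻¹,x⁻¹) = f(x,y)⁻¹` -/
theorem ff_JJ (x y : Q) : ff L (J y) (J x) = (ff L x y)⁻¹ := by
  have h1 : ff L (J y) (J x) = L (L x y) * (ff L x y)⁻¹ * (L (L x y))⁻¹ := by
    unfold ff
    rw [← h.aaip, h.k_LJ hK, h.k_LJ hK, h.k_LJ hK]; group
  rw [h1]
  have h2 := z_ic (h.comL (h.ff_mem x y) (h.ff_e x y) (h.ff_xy hK x y))
  rw [← h2]; group

/-- (i) `f(y,q)(xy) = th(x,q)(xy)` -/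
theorem k_i (x y q : Q) : ff L y q (L x y) = Th L J x q (L x y) := by
  have h1 := congrArg (fun p : Perm Q => p y) (Rcj (L := L) (J := J) x q)
  simp only [Perm.mul_apply] at h1
  -- `R_q⁻¹ (x (y q)) = x (th(x,q) y)`
  have h2 : L x (Th L J x q y) = Th L J x q (L x y) := by
    have := congrArg (fun p : Perm Q => p y) (h.k_La hK x q)
    simpa using this.symm
  rw [h2, Perm.inv_eq_iff_eq] at h1
  -- `x (y q) = R_{yq} x`
  have h3 : L x (Rt L J q y) = Rt L J (L y q) x := by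
    rw [h.Rt_app, h.Rt_app]
  have h4 := congrArg (fun p : Perm Q => ff L y q (p x)) (h.k_RR hK y q)
  simp only [Perm.mul_apply, apply_inv'] at h4
  rw [← h.Rt_app y x] 
  have h5 : ff L y q (Rt L J q (Rt L J y x)) = Rt L J q (ff L y q (Rt L J y x)) := by
    have := congrArg (fun p : Perm Q => p (Rt L J y x))
      (h.comR (h.ff_mem y q) (h.ff_e y q) (h.ff_y hK y q))
    simpa using this
  rw [h5, ← h3, h1] at h4
  rw [h.Rt_app y x] at h4 ⊢
  exact (Rt L J q).injective h4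

/-- (ii) `f(q,x)⁻¹(xy) = th(q,y)⁻¹(xy)` -/
theorem k_ii (q x y : Q) : (ff L q x)⁻¹ (L x y) = (Th L J q y)⁻¹ (L x y) := by
  have h1 := congrArg (fun p : Perm Q => p x) (Lcj (L := L) (J := J) q y)
  simp only [Perm.mul_apply] at h1
  have h2 : Rt L J y ((Th L J q y)⁻¹ x) = (Th L J q y)⁻¹ (L x y) := by
    have := congrArg (fun p : Perm Q => p x) (z_ic (h.k_Rb hK q y))
    simp only [Perm.mul_apply] at this
    rw [← this, h.Rt_app]
  rw [h2, h.Rt_app, Perm.inv_eq_iff_eq] at h1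
  have h3 := congrArg (fun p : Perm Q => p ((ff L q x)⁻¹ y)) (ff_mul (L := L) q x)
  simp only [Perm.mul_apply, apply_inv'] at h3
  rw [h1] at h3
  have h4 := (L q).injective h3
  rw [← h4]
  have h5 := congrArg (fun p : Perm Q => p y)
    (z_ic (h.comL (h.ff_mem q x) (h.ff_e q x) (h.ff_y hK q x)))
  simpa using h5

theorem k_IPl (x y : Q) : L (J x) (L x y) = y := by
  rw [h.k_LJ hK, inv_apply']

theorem k_IPr (x y : Q) : L (L x y) (J y) = x := by
  rw [← h.Rt_app, h.k_RJ hK, Perm.inv_eq_iff_eq, h.Rt_app]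

/-- (iii) -/
theorem k_iii (W v q : Q) : Th L J (L W (L W v)) q W = Th L J v q W := by
  -- `x = W v`, `y = v⁻¹`
  obtain ⟨x, hx⟩ : ∃ x, x = L W v := ⟨_, rfl⟩
  obtain ⟨y, hy⟩ : ∃ y, y = J v := ⟨_, rfl⟩
  have hW : L x y = W := by rw [hx, hy, h.k_IPr hK]
  have e1 : (ff L (J q) x)⁻¹ = ff L (J x) q := by
    have := h.ff_JJ hK (J x) q
    rw [h.JJ] at this
    rw [this, inv_inv]
  have e2 := h.k_ii hK (J q) x y
  rw [hW, e1, h.k_J' hK, inv_inv] at e2
  have e3 := h.k_i hK (L W x) (J x) q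
  rw [h.k_IPr hK] at e3
  rw [← hx, ← e3, e2, h.k_swap hK y q, hy, h.k_J' hK, inv_inv]

end k7

end AL0

end ALoop
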