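import Pool.Agent.H49.O1.End

/-!
# Automorphic loops: the end game, second part
-/

set_option autoImplicit false

namespace ALoop

open Equiv

variable {Q : Type*} {G : Subgroup (Perm Q)} {L : Q → Perm Q} {J : Perm Q} {e : Q}

namespace AL0

section k7

variable (h : AL0 G L J e) (hK : ∀ a b, Th L J a b b = b)

include h hK

/-- `L_W L_z = L_{Wz}` when all `th(W,y)` fix `z` -/
theorem k_pow1 (W z : Q) (hz : ∀ y, Th L J W y z = z) : L W * L z = L (L W z) := by
  have h1 : ff L W z = 1 := by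
    ext w
    obtain ⟨y, hy⟩ : ∃ y, w = L z y := ⟨(L z)⁻¹ w, by rw [apply_inv']⟩
    have h2 := h.k_ii hK W z y
    have h3 : Th L J W y (L z y) = L z y := by
      have h4 := congrArg (fun p : Perm Q => p y)
        (h.comL (h.Th_mem W y) (h.Th_e W y) (hz y))
      simp only [Perm.mul_apply] at h4
      rw [h4, hK]
    rw [z_fi h3] at h2
    rw [hy]
    rw [Perm.inv_eq_iff_eq] at h2
    simpa using h2.symm
  rw [ff_mul W z, h1, mul_one]

theorem k_pow (W : Q) (k : ℕ) : L W ^ k = L ((L W ^ k) e) := by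
  induction k with
  | zero => simp [h.Le1]
  | succ k ih =>
    have hz : ∀ y, Th L J W y ((L W ^ k) e) = (L W ^ k) e := by
      intro y
      have h1 : Commute (Th L J W y) (L W) := h.k_La hK W y
      have h2 := congrArg (fun p : Perm Q => p e) (h1.pow_right k).eq
      simp only [Perm.mul_apply] at h2
      rw [h2, h.Th_e]
    have h3 := h.k_pow1 hK W _ hz
    rw [← ih] at h3
    rw [pow_succ', h3]
    congr 1
    rw [← h3]
    rfl

/-- `L_W` has odd order -/
theorem k_odd [Finite Q] (hfix : ∀ x, J x = x → x = e) (W : Q) : Odd (orderOf (L W)) := by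
  by_contra hno
  rw [Nat.not_odd_iff_even] at hno
  obtain ⟨k, hk⟩ := hno
  have hpos : 0 < orderOf (L W) := orderOf_pos _
  have h1 : L W ^ k * L W ^ k = 1 := by
    rw [← pow_add, ← hk, pow_orderOf_eq_one]
  obtain ⟨z, hz⟩ : ∃ z, z = (L W ^ k) e := ⟨_, rfl⟩
  have h2 := h.k_pow hK W k
  rw [← hz] at h2
  rw [h2] at h1
  have h3 : L z z = e := by
    have := congrArg (fun p : Perm Q => p e) h1
    simp only [Perm.mul_apply] at this
    rw [h.Le] at this
    simpa using this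
  have h4 : J z = z := by
    have h5 := h.LJ z
    rw [← h3] at h5
    exact (L z).injective h5
  have h6 := hfix z h4
  rw [h6, h.Le1] at h2
  have h7 := orderOf_dvd_of_pow_eq_one h2
  have hk0 : 0 < k := by omega
  have := Nat.le_of_dvd hk0 h7
  omega

/-- (iii'): `th(Wv,q)W = th(v,q)W` -/
theorem k_iii' [Finite Q] (hfix : ∀ x, J x = x → x = e) (W v q : Q) :
    Th L J (L W v) q W = Th L J v q W := by
  have h1 : ∀ k : ℕ, ∀ v, Th L J (((L W) ^ (2 * k)) v) q W = Th L J v q W := by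
    intro k
    induction k with
    | zero => intro v; simp
    | succ k ih =>
      intro v
      have h2 : (L W) ^ (2 * (k + 1)) = L W ^ (2 * k) * L W * L W := by
        rw [show 2 * (k + 1) = 2 * k + 1 + 1 by ring, pow_succ, pow_succ]
      rw [h2, Perm.mul_apply, Perm.mul_apply, ih, h.k_iii hK]
  obtain ⟨k, hk⟩ := h.k_odd hK hfix W
  have h3 : L W = L W ^ (2 * (k + 1)) := by
    have : L W ^ (2 * k + 1) = 1 := by rw [← hk, pow_orderOf_eq_one]
    rw [show 2 * (k + 1) = (2 * k + 1) + 1 by ring, pow_succ, this, one_mul]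
  have h4 := h1 (k + 1) v
  rw [← h3] at h4
  exact h4

/-- Moufang: `f(b,q) = th(q,b)` -/
theorem k_mouf [Finite Q] (hfix : ∀ x, J x = x → x = e) (b q : Q) : ff L b q = Th L J q b := by
  ext W
  have h1 := h.k_i hK (L W (J b)) b q
  have h2 : L (L W (J b)) b = W := by
    have := h.k_IPr hK W (J b)
    rwa [h.JJ] at this
  rw [h2] at h1
  rw [h1, h.k_iii' hK hfix, h.k_J' hK, ← h.k_swap hK b q]

/-- `th(vz,v) = th(z,v)` -/
theorem k_vz (v z : Q) : Th L J (L v z) v = Th L J z v := by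
  have h1 : (Rt L J v)⁻¹ * L (L v z) * Rt L J v = L (L v z) * Th L J (L v z) v := Rcj _ _
  have h2 : L (L v z) = L v * L z * (ff L v z)⁻¹ := by unfold ff; group
  have c1 : ff L v z * Rt L J v = Rt L J v * ff L v z :=
    h.comR (h.ff_mem v z) (h.ff_e v z) (h.ff_x v z)
  have c2 := h.flex v
  have c3 : (Rt L J v)⁻¹ * L v = L v * (Rt L J v)⁻¹ := z_ic c2.symm
  have h3 : (Rt L J v)⁻¹ * L (L v z) * Rt L J v = L v * (L z * Th L J z v) * (ff L v z)⁻¹ := by
    rw [h2]
    calc (Rt L J v)⁻¹ * (L v * L z * (ff L v z)⁻¹) * Rt L J v =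
        ((Rt L J v)⁻¹ * L v) * L z * ((ff L v z)⁻¹ * Rt L J v) := by group
      _ = L v * ((Rt L J v)⁻¹ * L z * Rt L J v) * (ff L v z)⁻¹ := by rw [c3, z_ic c1]; group
      _ = _ := by rw [Rcj]
  rw [h1] at h3
  have h4 : Th L J (L v z) v = ff L v z * Th L J z v * (ff L v z)⁻¹ := by
    have h5 : L (L v z) * Th L J (L v z) v = L (L v z) * (ff L v z * Th L J z v * (ff L v z)⁻¹) := by
      rw [h3]
      have h6 : L (L v z) * ff L v z = L v * L z := (ff_mul v z).symm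
      calc L v * (L z * Th L J z v) * (ff L v z)⁻¹ = (L v * L z) * Th L J z v * (ff L v z)⁻¹ := by
            group
        _ = (L (L v z) * ff L v z) * Th L J z v * (ff L v z)⁻¹ := by rw [h6]
        _ = _ := by group
    exact mul_left_cancel h5
  have h7 : ff L v z * Th L J z v = Th L J z v * ff L v z := by
    -- `f(v,z)` commutes with `L_z` and `R_v`
    have d1 := h.comL (h.ff_mem v z) (h.ff_e v z) (h.ff_y hK v z)
    have C1 : Commute (ff L v z) (L z) := d1
    have C2 : Commute (ff L v z) (Rt L J v) := c1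
    have C3 : Commute (ff L v z) (Th L J z v) := by
      unfold Th
      exact ((C1.inv_right.mul_right C2.inv_right).mul_right C1).mul_right C2
    exact C3
  rw [h4, h7]; group

/-- `R_v⁻¹ L_x R_v = L_v L_{v⁻¹x}` -/
theorem k_M1 [Finite Q] (hfix : ∀ x, J x = x → x = e) (v x : Q) :
    (Rt L J v)⁻¹ * L x * Rt L J v = L v * L ((L v)⁻¹ x) := by
  obtain ⟨z, hz⟩ : ∃ z, x = L v z := ⟨(L v)⁻¹ x, by rw [apply_inv']⟩
  rw [Rcj, hz, inv_apply', h.k_vz hK, ff_mul v z, h.k_mouf hK hfix v z]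

/-- two factorisations -/
theorem k_Z [Finite Q] (hfix : ∀ x, J x = x → x = e) (v w z : Q) :
    (Rt L J (L v w))⁻¹ * L z * Rt L J (L v w) = (Rt L J (L w v))⁻¹ * L z * Rt L J (L w v) := by
  have key : ∀ x, L w * L ((L w)⁻¹ v) * (L w * L ((L w)⁻¹ ((L v)⁻¹ x))) =
      L (L w v) * L ((L (L w v))⁻¹ (ff L w v x)) := by
    intro x
    have e1 : (Rt L J w)⁻¹ * ((Rt L J v)⁻¹ * L x * Rt L J v) * Rt L J w =
        (Rt L J (L w v))⁻¹ * L (ff L w v x) * Rt L J (L w v) := by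
      have h1 := h.k_RR hK w v
      have h2 : (Rt L J w)⁻¹ * ((Rt L J v)⁻¹ * L x * Rt L J v) * Rt L J w =
          (Rt L J v * Rt L J w)⁻¹ * L x * (Rt L J v * Rt L J w) := by group
      rw [h2, h1, ← h.equi _ (h.ff_mem w v) (h.ff_e w v) x]
      group
    rw [h.k_M1 hK hfix (L w v)] at e1
    rw [← e1, h.k_M1 hK hfix v x]
    calc L w * L ((L w)⁻¹ v) * (L w * L ((L w)⁻¹ ((L v)⁻¹ x))) =
        ((Rt L J w)⁻¹ * L v * Rt L J w) * ((Rt L J w)⁻¹ * L ((L v)⁻¹ x) * Rt L J w) := by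
          rw [h.k_M1 hK hfix w v, h.k_M1 hK hfix w ((L v)⁻¹ x)]
      _ = _ := by group
  have hLi : ∀ x, (L x)⁻¹ e = J x := fun x => by rw [Perm.inv_eq_iff_eq, h.LJ]
  have k0 := key e
  have e2 : (L w)⁻¹ ((L v)⁻¹ e) = J (L v w) := by
    rw [hLi, ← h.k_LJ hK, ← h.aaip]
  rw [e2, h.ff_e, hLi, h.k_LJ hK, h.k_LJ hK, mul_inv_cancel] at k0
  have k1 : L w * L ((L w)⁻¹ v) * L w = L (L v w) := by
    have : L w * L ((L w)⁻¹ v) * (L w * (L (L v w))⁻¹) =
      (L w * L ((L w)⁻¹ v) * L w) * (L (L v w))⁻¹ := by group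
    rw [this] at k0
    exact mul_inv_eq_one.mp k0
  have key2 : ∀ x, L (L v w) * L ((L w)⁻¹ ((L v)⁻¹ x)) =
      L (L w v) * L ((L (L w v))⁻¹ (ff L w v x)) := by
    intro x
    rw [← key x, ← k1]; group
  have hff : (ff L v w)⁻¹ = ff L w v := by
    rw [h.k_mouf hK hfix v w, h.k_mouf hK hfix w v, ← h.k_swap hK w v]
  have e3 : ∀ x, (L w)⁻¹ ((L v)⁻¹ x) = (L (L v w))⁻¹ (ff L w v x) := by
    intro x
    have c1 := z_ci (z_ic (h.comL (h.ff_mem v w) (h.ff_e v w) (h.ff_xy hK v w)))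
    have h1 : (L w)⁻¹ * (L v)⁻¹ = (ff L v w)⁻¹ * (L (L v w))⁻¹ := by
      rw [← mul_inv_rev, ff_mul v w, mul_inv_rev]
    have h2 := congrArg (fun p : Perm Q => p x) h1
    simp only [Perm.mul_apply] at h2
    rw [h2]
    have h3 := congrArg (fun p : Perm Q => p x) c1
    simp only [Perm.mul_apply] at h3
    rw [h3, hff]
  rw [h.k_M1 hK hfix, h.k_M1 hK hfix]
  have h5 := key2 ((ff L w v)⁻¹ z)
  rw [e3, apply_inv'] at h5
  exact h5

end k7

end AL0

/-- the end game -/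
theorem AL.k7_end [Finite Q] (h : AL G L J e) (hfix : ∀ x, J x = x → x = e)
    (hK : ∀ a b, Th L J a b b = b) {v w : Q} (hvw : L v w ≠ L w v) : Assoc L := by
  have h0 := h.al0
  obtain ⟨g0, hg0⟩ : ∃ g0, g0 = Rt L J (L w v) * (Rt L J (L v w))⁻¹ := ⟨_, rfl⟩
  have hg0G : g0 ∈ G := hg0 ▸ G.mul_mem (h0.memR _) (G.inv_mem (h0.memR _))
  have hg0c : ∀ z, g0 * L z = L z * g0 := by
    intro z
    have h1 := h0.k_Z hK hfix v w z
    rw [hg0]
    calc Rt L J (L w v) * (Rt L J (L v w))⁻¹ * L z =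
        Rt L J (L w v) * ((Rt L J (L v w))⁻¹ * L z * Rt L J (L v w)) * (Rt L J (L v w))⁻¹ := by
          group
      _ = Rt L J (L w v) * ((Rt L J (L w v))⁻¹ * L z * Rt L J (L w v)) * (Rt L J (L v w))⁻¹ := by
          rw [h1]
      _ = _ := by group
  have hg0e : g0 e ≠ e := by
    intro he
    apply hvw
    rw [hg0, Perm.mul_apply] at he
    have h2 : (Rt L J (L v w))⁻¹ e = (Rt L J (L w v))⁻¹ e := by
      rw [← he, inv_apply', he]
    rw [h0.Rt_inv_e, h0.Rt_inv_e] at h2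
    exact J.injective h2
  obtain ⟨r, hr⟩ : ∃ r : Q → Q → Prop, r = fun a b => ∃ g ∈ G, (∀ z, g * L z = L z * g) ∧ g a = b :=
    ⟨_, rfl⟩
  have hequiv : Equivalence r := by
    rw [hr]
    refine ⟨fun a => ⟨1, G.one_mem, fun z => by simp, by simp⟩, ?_, ?_⟩
    · rintro a b ⟨g, hg, hgc, hab⟩
      exact ⟨g⁻¹, G.inv_mem hg, fun z => z_ic (hgc z), by rw [← hab, inv_apply']⟩
    · rintro a b c ⟨g, hg, hgc, hab⟩ ⟨k, hk, hkc, hbc⟩
      refine ⟨k * g, G.mul_mem hk hg, fun z => ?_, by rw [Perm.mul_apply, hab, hbc]⟩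
      rw [mul_assoc, hgc, ← mul_assoc, hkc, mul_assoc]
  have hinv : ∀ k ∈ G, ∀ a b, r a b → r (k a) (k b) := by
    intro k hk a b hab
    rw [hr] at hab ⊢
    obtain ⟨g, hg, hgc, hab⟩ := hab
    refine ⟨k * g * k⁻¹, G.mul_mem (G.mul_mem hk hg) (G.inv_mem hk), ?_, ?_⟩
    · obtain ⟨t, ht⟩ : ∃ t, t = (L (k e))⁻¹ * k := ⟨_, rfl⟩
      have htG : t ∈ G := ht ▸ G.mul_mem (G.inv_mem (h.memL _)) hk
      have hte : t e = e := by rw [ht, Perm.mul_apply, Perm.inv_eq_iff_eq, h.Le]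
      have hkt : k = L (k e) * t := by rw [ht]; group
      have h1 : ∀ z, (t * g * t⁻¹) * L z = L z * (t * g * t⁻¹) := by
        intro z
        have e1 : t⁻¹ * L z * t = L (t⁻¹ z) := by
          have := h.equi t⁻¹ (G.inv_mem htG) (z_fi hte) z
          rwa [inv_inv] at this
        calc (t * g * t⁻¹) * L z = t * (g * (t⁻¹ * L z * t)) * t⁻¹ := by group
          _ = t * (L (t⁻¹ z) * g) * t⁻¹ := by rw [e1, hgc]
          _ = t * ((t⁻¹ * L z * t) * g) * t⁻¹ := by rw [e1]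
          _ = L z * (t * g * t⁻¹) := by group
      have h2 : k * g * k⁻¹ = t * g * t⁻¹ := by
        rw [hkt]
        calc L (k e) * t * g * (L (k e) * t)⁻¹ = (L (k e) * (t * g * t⁻¹)) * (L (k e))⁻¹ := by group
          _ = t * g * t⁻¹ := by rw [← h1]; group
      intro z
      rw [h2, h1]
    · rw [Perm.mul_apply, Perm.mul_apply, inv_apply', hab]
  rcases h.prim r hequiv hinv with h1 | h1
  · exfalso
    apply hg0e
    have h2 : r e (g0 e) := by
      rw [hr]
      exact ⟨g0, hg0G, hg0c, rfl⟩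
    exact (h1 _ _ h2).symm
  · intro x y z
    have h2 := h1 e z
    rw [hr] at h2
    obtain ⟨g, hg, hgc, hge⟩ := h2
    have h3 : ∀ y, g y = L y z := by
      intro y
      have := congrArg (fun p : Perm Q => p e) (hgc y)
      simp only [Perm.mul_apply] at this
      rwa [h.Le, hge] at this
    have h4 := congrArg (fun p : Perm Q => p y) (hgc x)
    simp only [Perm.mul_apply] at h4
    rwa [h3, h3] at h4

end ALoop
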